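import Mathlib

open Finset

namespace Pool.Agent.ACN

/-- Alive cost of a walk (a list of sites): the number of steps with two alive end points. -/
noncomputable def cost {X : Type*} (dead : Set X) : List X → ℕ
  | [] => 0
  | [_] => 0
  | x :: y :: l => (open Classical in if x ∈ dead ∨ y ∈ dead then 0 else 1) + cost dead (y :: l)

theorem cost_cons_le {X : Type*} (dead : Set X) (x : X) (l : List X) :
    cost dead l ≤ cost dead (x :: l) := by
  cases l with
  | nil => simp [cost]
  | cons y l => simp [cost]

theorem cost_append {X : Type*} (dead : Set X) (s t : List X) :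
    cost dead s + cost dead t ≤ cost dead (s ++ t) := by
  induction s with
  | nil => simp [cost]
  | cons x s ih =>
    cases s with
    | nil =>
      have := cost_cons_le dead x t
      simpa [cost] using this
    | cons y s =>
      simp only [List.cons_append, cost] at ih ⊢
      omega

/-- More dead sites which are not visited do not change the cost. -/
theorem cost_congr {X : Type*} (dead dead' : Set X) (l : List X)
    (h : ∀ x ∈ l, x ∈ dead ↔ x ∈ dead') : cost dead l = cost dead' l := by
  induction l with
  | nil => simp [cost]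
  | cons x l ih =>
    cases l with
    | nil => simp [cost]
    | cons y l =>
      have h1 := h x (by simp)
      have h2 := h y (by simp)
      have h3 := ih (fun z hz => h z (List.mem_cons_of_mem _ hz))
      simp only [cost, h3]
      congr 1
      by_cases hx : x ∈ dead <;> by_cases hy : y ∈ dead
      · simp [hx, hy, h1.1 hx]
      · simp [hx, h1.1 hx]
      · simp [hy, h2.1 hy]
      · have hx' : x ∉ dead' := fun h => hx (h1.2 h)
        have hy' : y ∉ dead' := fun h => hy (h2.2 h)
        simp [hx, hy, hx', hy']

theorem split_first {X : Type*} (P : X → Prop) (l : List X) :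
    (∀ x ∈ l, ¬ P x) ∨ ∃ s v t, l = s ++ v :: t ∧ (∀ x ∈ s, ¬ P x) ∧ P v := by
  classical
  induction l with
  | nil => left; simp
  | cons x l ih =>
    by_cases hx : P x
    · right
      exact ⟨[], x, l, by simp, by simp, hx⟩
    · rcases ih with ih | ⟨s, v, t, h1, h2, h3⟩
      · left
        intro z hz
        rcases List.mem_cons.1 hz with rfl | hz
        · exact hx
        · exact ih z hz
      · right
        refine ⟨x :: s, v, t, by simp [h1], ?_, h3⟩
        intro z hz
        rcases List.mem_cons.1 hz with rfl | hz
        · exact hx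
        · exact h2 z hz

theorem split_last {X : Type*} [DecidableEq X] (v : X) (l : List X) (hv : v ∈ l) :
    ∃ s t, l = s ++ v :: t ∧ v ∉ t := by
  induction l with
  | nil => simp at hv
  | cons x l ih =>
    by_cases hl : v ∈ l
    · obtain ⟨s, t, h1, h2⟩ := ih hl
      exact ⟨x :: s, t, by simp [h1], h2⟩
    · rcases List.mem_cons.1 hv with rfl | h
      · exact ⟨[], l, by simp, hl⟩
      · exact absurd h hl

/-- A walk from `x` to `y`. -/
def IsWalk {X : Type*} (adj : X → X → Prop) (x y : X) (l : List X) : Prop :=
  List.IsChain adj l ∧ l.head? = some x ∧ l.getLast? = some y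

theorem walk_left {X : Type*} {adj : X → X → Prop} {x y v : X} {s t : List X}
    (h : IsWalk adj x y (s ++ v :: t)) (hs : s ≠ []) :
    ∃ u, IsWalk adj x u s ∧ adj u v := by
  obtain ⟨h1, h2, h3⟩ := h
  refine ⟨s.getLast hs, ⟨?_, ?_, ?_⟩, ?_⟩
  · exact h1.left_of_append
  · cases s with
    | nil => exact absurd rfl hs
    | cons a s => simpa using h2
  · exact List.getLast?_eq_getLast_of_ne_nil hs
  · rw [List.isChain_append] at h1
    exact h1.2.2 _ (List.getLast?_eq_getLast_of_ne_nil hs) _ (by simp)

theorem walk_right {X : Type*} {adj : X → X → Prop} {x y v : X} {s t : List X}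
    (h : IsWalk adj x y (s ++ v :: t)) : IsWalk adj v y (v :: t) := by
  obtain ⟨h1, h2, h3⟩ := h
  refine ⟨h1.right_of_append, by simp, ?_⟩
  rw [List.getLast?_append] at h3
  simpa using h3

theorem walk_tail {X : Type*} {adj : X → X → Prop} {x y v : X} {s t : List X}
    (h : IsWalk adj x y (s ++ v :: t)) (ht : t ≠ []) :
    ∃ u, IsWalk adj u y t ∧ adj v u := by
  obtain ⟨h1, h2, h3⟩ := walk_right h
  cases t with
  | nil => exact absurd rfl ht
  | cons a t =>
    refine ⟨a, ⟨?_, by simp, ?_⟩, ?_⟩
    · exact h1.tail
    · simpa using h3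
    · rw [List.isChain_cons_cons] at h1
      exact h1.1

theorem walk_nil_right {X : Type*} {adj : X → X → Prop} {x y v : X} {s : List X}
    (h : IsWalk adj x y (s ++ [v])) : v = y := by
  obtain ⟨_, _, h3⟩ := h
  simpa using h3

theorem walk_nil_left {X : Type*} {adj : X → X → Prop} {x y v : X} {t : List X}
    (h : IsWalk adj x y (v :: t)) : v = x := by
  obtain ⟨_, h2, _⟩ := h
  simpa using h2

/-- Adding the dead sites of `Hall`, of which the walk visits only sites of the finite set `H`. -/
theorem cost_local {X : Type*} [DecidableEq X] (adj : X → X → Prop) (δ : X → X → ℝ)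
    (δ0 : ∀ x, δ x x = 0) (δp : ∀ x y, 0 ≤ δ x y)
    (δt : ∀ x y z, δ x z ≤ δ x y + δ y z) (hadj : ∀ x y, adj x y → δ x y ≤ 1)
    (dead Hall : Set X) (κ c : ℝ) (hκ0 : 0 ≤ κ) (hκ1 : κ ≤ 1) (hc : 0 ≤ c)
    (hprev : ∀ x y l, IsWalk adj x y l → κ * δ x y - c ≤ cost dead l) :
    ∀ (n : ℕ) (H : Finset X), H.card ≤ n → ∀ x y l, IsWalk adj x y l →
      (∀ z ∈ l, z ∈ Hall → z ∈ H) →
      κ * δ x y - (c + n * (c + 2)) ≤ cost (dead ∪ Hall) l := by
  intro n
  induction n with
  | zero =>
    intro H hH x y l hl hv
    have hH0 : H = ∅ := Finset.card_eq_zero.1 (by omega)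
    have h1 : cost (dead ∪ Hall) l = cost dead l := by
      refine cost_congr _ _ _ ?_
      intro z hz
      constructor
      · rintro (h | h)
        · exact h
        · have := hv z hz h
          rw [hH0] at this
          simp at this
      · intro h
        exact Or.inl h
    rw [h1]
    have := hprev x y l hl
    push_cast
    linarith
  | succ n ih =>
    intro H hH x y l hl hv
    rcases split_first (fun z => z ∈ Hall) l with h | ⟨s, v, t, hl1, hs, hvH⟩
    · have h1 : cost (dead ∪ Hall) l = cost dead l := by
        refine cost_congr _ _ _ ?_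
        intro z hz
        constructor
        · rintro (h' | h')
          · exact h'
          · exact absurd h' (h z hz)
        · intro h'
          exact Or.inl h'
      rw [h1]
      have := hprev x y l hl
      have h3 : (0 : ℝ) ≤ ((n + 1 : ℕ) : ℝ) * (c + 2) := by positivity
      linarith
    · have hvl : v ∈ l := by rw [hl1]; simp
      have hvH' : v ∈ H := hv v hvl hvH
      -- the last visit of v
      obtain ⟨s', t', ht1, ht2⟩ := split_last v (v :: t) (by simp)
      have hl2 : l = (s ++ s') ++ v :: t' := by rw [hl1, ht1]; simp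
      have hcost : cost (dead ∪ Hall) s + cost (dead ∪ Hall) t' ≤ cost (dead ∪ Hall) l := by
        rw [hl2]
        have e1 := cost_append (dead ∪ Hall) (s ++ s') (v :: t')
        have e2 := cost_append (dead ∪ Hall) s s'
        have e3 := cost_cons_le (dead ∪ Hall) v t'
        omega
      -- left part
      have hleft : κ * δ x v - κ - c ≤ cost (dead ∪ Hall) s := by
        by_cases hsn : s = []
        · subst hsn
          have : v = x := walk_nil_left (by rw [hl1] at hl; simpa using hl)
          subst this
          rw [δ0]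
          simp only [cost]
          push_cast
          linarith
        · obtain ⟨u, hu1, hu2⟩ := walk_left (by rw [hl1] at hl; exact hl) hsn
          have e1 : cost (dead ∪ Hall) s = cost dead s := by
            refine cost_congr _ _ _ ?_
            intro z hz
            constructor
            · rintro (h' | h')
              · exact h'
              · exact absurd h' (hs z hz)
            · intro h'
              exact Or.inl h'
          rw [e1]
          have e2 := hprev x u s hu1
          have e3 := δt x u v
          have e4 := hadj u v hu2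
          nlinarith
      have hright : κ * δ v y - κ - (c + n * (c + 2)) ≤ cost (dead ∪ Hall) t' := by
        by_cases htn : t' = []
        · subst htn
          have : v = y := walk_nil_right (by rw [hl2] at hl; exact hl)
          subst this
          rw [δ0]
          simp only [cost]
          push_cast
          have : (0 : ℝ) ≤ (n : ℝ) * (c + 2) := by positivity
          linarith
        · obtain ⟨u, hu1, hu2⟩ := walk_tail (by rw [hl2] at hl; exact hl) htn
          have hcard : (H.erase v).card ≤ n := by
            rw [Finset.card_erase_of_mem hvH']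
            omega
          have e2 := ih (H.erase v) hcard u y t' hu1 (by
            intro z hz hz2
            rw [Finset.mem_erase]
            refine ⟨?_, ?_⟩
            · rintro rfl
              exact ht2 hz
            · refine hv z ?_ hz2
              rw [hl2]
              simp [hz])
          have e3 := δt v u y
          have e4 := hadj v u hu2
          nlinarith
      have e5 := δt x v y
      have e6 : (cost (dead ∪ Hall) s : ℝ) + cost (dead ∪ Hall) t' ≤ cost (dead ∪ Hall) l := by
        exact_mod_cast hcost
      push_cast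
      nlinarith

/-- One level: the new dead sites have at most `h` elements in every ball of radius `r`. -/
theorem cost_level {X : Type*} [DecidableEq X] (adj : X → X → Prop) (δ : X → X → ℝ)
    (δ0 : ∀ x, δ x x = 0) (δp : ∀ x y, 0 ≤ δ x y)
    (δt : ∀ x y z, δ x z ≤ δ x y + δ y z) (hadj : ∀ x y, adj x y → δ x y ≤ 1)
    (dead Hall : Set X) (κ c : ℝ) (hκ0 : 0 ≤ κ) (hκ1 : κ ≤ 1) (hc : 0 ≤ c)
    (hprev : ∀ x y l, IsWalk adj x y l → κ * δ x y - c ≤ cost dead l)
    (r : ℝ) (h : ℕ)
    (hball : ∀ x, ∃ H : Finset X, H.card ≤ h ∧ ∀ z, δ x z ≤ r → z ∈ Hall → z ∈ H)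
    (κ' c' : ℝ) (hκ'0 : 0 ≤ κ') (hκ' : κ' ≤ κ) (hc' : c + h * (c + 2) ≤ c')
    (hr1 : 1 ≤ r) (hr : c' + 1 ≤ (κ - κ') * (r - 1)) :
    ∀ (N : ℕ) (x y : X) (l : List X), l.length ≤ N → IsWalk adj x y l →
      κ' * δ x y - c' ≤ cost (dead ∪ Hall) l := by
  intro N
  induction N with
  | zero =>
    intro x y l hN hl
    have : l = [] := List.length_eq_zero_iff.1 (by omega)
    subst this
    obtain ⟨_, h2, _⟩ := hl
    simp at h2
  | succ N ih =>
    intro x y l hN hl
    obtain ⟨H, hH1, hH2⟩ := hball x
    rcases split_first (fun z => ¬ δ x z ≤ r) l with hin | ⟨s, z, t, hl1, hs, hz⟩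
    · have e1 := cost_local adj δ δ0 δp δt hadj dead Hall κ c hκ0 hκ1 hc hprev h H hH1 x y l hl (by
        intro z hz hz2
        exact hH2 z (not_not.1 (hin z hz)) hz2)
      have e2 := δp x y
      nlinarith
    · have hsn : s ≠ [] := by
        intro hs0
        subst hs0
        have : z = x := walk_nil_left (by rw [hl1] at hl; simpa using hl)
        subst this
        rw [δ0] at hz
        exact hz (by linarith)
      obtain ⟨u, hu1, hu2⟩ := walk_left (by rw [hl1] at hl; exact hl) hsn
      have hw := walk_right (by rw [hl1] at hl; exact hl)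
      have hlen : (z :: t).length ≤ N := by
        have : l.length = s.length + (z :: t).length := by rw [hl1]; simp
        have : 0 < s.length := List.length_pos_iff.2 hsn
        omega
      have e1 := cost_local adj δ δ0 δp δt hadj dead Hall κ c hκ0 hκ1 hc hprev h H hH1 x u s hu1 (by
        intro w hw hw2
        exact hH2 w (not_not.1 (hs w hw)) hw2)
      have e2 := ih z y (z :: t) hlen hw
      have e3 : (cost (dead ∪ Hall) s : ℝ) + cost (dead ∪ Hall) (z :: t) ≤
          cost (dead ∪ Hall) l := by
        rw [hl1]
        exact_mod_cast cost_append (dead ∪ Hall) s (z :: t)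
      have e4 := hadj u z hu2
      have e5 := δt x u z
      have e6 := δt x z y
      have e7 : r - 1 ≤ δ x u := by
        have := not_le.1 hz
        linarith
      have e8 : c' + 1 ≤ (κ - κ') * δ x u := by
        have : (κ - κ') * (r - 1) ≤ (κ - κ') * δ x u :=
          mul_le_mul_of_nonneg_left e7 (by linarith)
        linarith
      have e9 := δp z y
      nlinarith

/-- No dead sites: the cost is at least the distance. -/
theorem cost_base {X : Type*} (adj : X → X → Prop) (δ : X → X → ℝ)
    (δ0 : ∀ x, δ x x = 0)
    (δt : ∀ x y z, δ x z ≤ δ x y + δ y z) (hadj : ∀ x y, adj x y → δ x y ≤ 1) :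
    ∀ (l : List X) (x y : X), IsWalk adj x y l → (1 : ℝ) * δ x y - 0 ≤ cost (∅ : Set X) l := by
  intro l
  induction l with
  | nil =>
    intro x y hl
    obtain ⟨_, h2, _⟩ := hl
    simp at h2
  | cons a l ih =>
    intro x y hl
    have hax : a = x := walk_nil_left hl
    subst hax
    cases l with
    | nil =>
      have : a = y := by
        obtain ⟨_, _, h3⟩ := hl
        simpa using h3
      subst this
      rw [δ0]
      simp [cost]
    | cons b l =>
      obtain ⟨h1, h2, h3⟩ := hl
      rw [List.isChain_cons_cons] at h1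
      have e1 := ih b y ⟨h1.2, by simp, by simpa using h3⟩
      have e2 := hadj a b h1.1
      have e3 := δt a b y
      simp only [cost, Set.mem_empty_iff_false, or_self, if_false]
      push_cast
      linarith

/-- **All levels.** -/
theorem cost_all {X : Type*} [DecidableEq X] (adj : X → X → Prop) (δ : X → X → ℝ)
    (δ0 : ∀ x, δ x x = 0) (δp : ∀ x y, 0 ≤ δ x y)
    (δt : ∀ x y z, δ x z ≤ δ x y + δ y z) (hadj : ∀ x y, adj x y → δ x y ≤ 1)
    (D : ℕ → Set X) (r : ℕ → ℝ) (h : ℕ → ℕ)
    (hball : ∀ m x, ∃ H : Finset X, H.card ≤ h m ∧ ∀ z, δ x z ≤ r m → z ∈ D m → z ∈ H)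
    (κ c : ℕ → ℝ) (hκ0 : κ 0 ≤ 1) (hc0 : 0 ≤ c 0) (hκ : ∀ m, 0 ≤ κ m)
    (hκm : ∀ m, κ (m + 1) ≤ κ m) (hcm : ∀ m, c m + h m * (c m + 2) ≤ c (m + 1))
    (hr1 : ∀ m, 1 ≤ r m) (hr : ∀ m, c (m + 1) + 1 ≤ (κ m - κ (m + 1)) * (r m - 1)) :
    ∀ (m : ℕ) (x y : X) (l : List X), IsWalk adj x y l →
      κ m * δ x y - c m ≤ cost (⋃ i ∈ Set.Iio m, D i) l := by
  have hcpos : ∀ m, 0 ≤ c m := by
    intro m
    induction m with
    | zero => exact hc0
    | succ m ih =>
      have h1 := hcm m
      have h2 : (0 : ℝ) ≤ (h m : ℝ) * (c m + 2) := by positivity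
      linarith
  have hκle : ∀ m, κ m ≤ 1 := by
    intro m
    induction m with
    | zero => exact hκ0
    | succ m ih => exact le_trans (hκm m) ih
  intro m
  induction m with
  | zero =>
    intro x y l hl
    have e1 := cost_base adj δ δ0 δt hadj l x y hl
    have e2 : (⋃ i ∈ Set.Iio 0, D i) = (∅ : Set X) := by
      ext z
      simp
    rw [e2]
    have e3 := δp x y
    nlinarith
  | succ m ih =>
    intro x y l hl
    have e2 : (⋃ i ∈ Set.Iio (m + 1), D i) = (⋃ i ∈ Set.Iio m, D i) ∪ D m := by
      ext z
      simp only [Set.mem_iUnion, Set.mem_Iio, Set.mem_union, exists_prop]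
      constructor
      · rintro ⟨i, hi, hz⟩
        rcases Nat.lt_succ_iff_lt_or_eq.1 hi with h | rfl
        · exact Or.inl ⟨i, h, hz⟩
        · exact Or.inr hz
      · rintro (⟨i, hi, hz⟩ | hz)
        · exact ⟨i, by omega, hz⟩
        · exact ⟨m, by omega, hz⟩
    rw [e2]
    exact cost_level adj δ δ0 δp δt hadj (⋃ i ∈ Set.Iio m, D i) (D m) (κ m) (c m) (hκ m) (hκle m)
      (hcpos m) ih (r m) (h m) (hball m) (κ (m + 1)) (c (m + 1)) (hκ (m + 1)) (hκm m) (hcm m)
      (hr1 m) (hr m) l.length x y l le_rfl hl

/-- **The plateau weight.** If every walk costs at least `κ δ - c`, then for every site `x` there is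
a function `φ` (the alive distance to `x`, truncated at `N`) which is constant across edges touching
dead sites, 1-Lipschitz across the others, zero at `x`, and large far from `x`. -/
theorem plateau {X : Type*} (adj : X → X → Prop) (hsym : ∀ x y, adj x y → adj y x)
    (δ : X → X → ℝ) (dead : Set X) (κ c : ℝ)
    (hw : ∀ x y l, IsWalk adj x y l → κ * δ x y - c ≤ cost dead l) (x : X) (N : ℕ) :
    ∃ φ : X → ℕ, φ x = 0 ∧ (∀ y, min (N : ℝ) (κ * δ x y - c) ≤ φ y) ∧ (∀ y, φ y ≤ N) ∧
      (∀ y z, adj y z → φ z ≤ φ y + 1) ∧
      (∀ y z, adj y z → (y ∈ dead ∨ z ∈ dead) → φ z = φ y) := by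
  classical
  set A : X → Set ℕ := fun y => {n | n = N ∨ ∃ l, IsWalk adj x y l ∧ cost dead l = n} with hA
  have hne : ∀ y, (A y).Nonempty := fun y => ⟨N, Or.inl rfl⟩
  have hmem : ∀ y, sInf (A y) ∈ A y := fun y => Nat.sInf_mem (hne y)
  have hle : ∀ y n, n ∈ A y → sInf (A y) ≤ n := fun y n hn => Nat.sInf_le hn
  -- extension of walks by one step
  have hext : ∀ (y z : X) (l : List X), adj y z → IsWalk adj x y l →
      IsWalk adj x z (l ++ [z]) ∧ cost dead (l ++ [z]) ≤ cost dead l + 1 ∧
        ((y ∈ dead ∨ z ∈ dead) → cost dead (l ++ [z]) = cost dead l) := by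
    intro y z l hyz hl
    obtain ⟨h1, h2, h3⟩ := hl
    have hln : l ≠ [] := by
      rintro rfl
      simp at h2
    refine ⟨⟨?_, ?_, ?_⟩, ?_⟩
    · rw [List.isChain_append]
      refine ⟨h1, by simp, ?_⟩
      intro a ha b hb
      rw [h3] at ha
      simp at ha hb
      rw [← ha, ← hb]
      exact hyz
    · cases l with
      | nil => exact absurd rfl hln
      | cons a l => simpa using h2
    · simp
    · clear h2
      induction l with
      | nil => exact absurd rfl hln
      | cons a l ih =>
        cases l with
        | nil =>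
          simp at h3
          subst h3
          constructor
          · simp only [List.cons_append, List.nil_append, cost]
            split_ifs <;> omega
          · intro h
            simp only [List.cons_append, List.nil_append, cost, if_pos h]
        | cons b l =>
          rw [List.isChain_cons_cons] at h1
          obtain ⟨i1, i2⟩ := ih h1.2 (by simpa using h3) (by simp)
          simp only [List.cons_append, cost] at i1 i2 ⊢
          constructor
          · omega
          · intro h
            have := i2 h
            omega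
  have hstep : ∀ y z, adj y z → sInf (A z) ≤ sInf (A y) + 1 := by
    intro y z hyz
    rcases hmem y with h | ⟨l, hl, hc⟩
    · have := hle z N (Or.inl rfl)
      omega
    · obtain ⟨h1, h2, _⟩ := hext y z l hyz hl
      have := hle z _ (Or.inr ⟨_, h1, rfl⟩)
      omega
  have hfree : ∀ y z, adj y z → (y ∈ dead ∨ z ∈ dead) → sInf (A z) ≤ sInf (A y) := by
    intro y z hyz hd
    rcases hmem y with h | ⟨l, hl, hc⟩
    · have := hle z N (Or.inl rfl)
      omega
    · obtain ⟨h1, _, h2⟩ := hext y z l hyz hl
      have := hle z _ (Or.inr ⟨_, h1, rfl⟩)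
      have := h2 hd
      omega
  refine ⟨fun y => sInf (A y), ?_, ?_, ?_, hstep, ?_⟩
  · have : (0 : ℕ) ∈ A x := Or.inr ⟨[x], ⟨by simp, by simp, by simp⟩, by simp [cost]⟩
    have := hle x 0 this
    simp only
    omega
  · intro y
    rcases hmem y with h | ⟨l, hl, hc⟩
    · simp only
      rw [h]
      exact min_le_left _ _
    · have e1 := hw x y l hl
      rw [hc] at e1
      exact le_trans (min_le_right _ _) e1
  · intro y
    exact hle y N (Or.inl rfl)
  · intro y z hyz hd
    refine le_antisymm (hfree y z hyz hd) (hfree z y (hsym y z hyz) ?_)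
    tauto

end Pool.Agent.ACN
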