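import Mathlib
import Pool.Agent.Helper61_ACN.Metric

open Finset

namespace Pool.Agent.ACN

/-- Loop erasure: a walk can be replaced by a simple one of at most the same cost. -/
theorem loop_erase {X : Type*} [DecidableEq X] (adj : X → X → Prop) (dead : Set X) :
    ∀ (N : ℕ) (x y : X) (l : List X), l.length ≤ N → IsWalk adj x y l →
      ∃ l' : List X, IsWalk adj x y l' ∧ l'.Nodup ∧ (∀ z ∈ l', z ∈ l) ∧
        cost dead l' ≤ cost dead l := by
  intro N
  induction N with
  | zero =>
    intro x y l hN hl
    have : l = [] := List.length_eq_zero_iff.1 (by omega)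
    subst this
    obtain ⟨_, h2, _⟩ := hl
    simp at h2
  | succ N ih =>
    intro x y l hN hl
    have hxl : x ∈ l := by
      obtain ⟨_, h2, _⟩ := hl
      exact List.mem_of_mem_head? (by rw [h2]; simp)
    obtain ⟨s, t, h1, h2⟩ := split_last x l hxl
    have hc : cost dead (x :: t) ≤ cost dead l := by
      rw [h1]
      have := cost_append dead s (x :: t)
      omega
    by_cases ht : t = []
    · subst ht
      have hxy : x = y := walk_nil_right (by rw [h1] at hl; exact hl)
      subst hxy
      refine ⟨[x], ⟨by simp, by simp, by simp⟩, by simp, ?_, by simp [cost]⟩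
      intro z hz
      simp at hz
      subst hz
      exact hxl
    · obtain ⟨u, hu1, hu2⟩ := walk_tail (by rw [h1] at hl; exact hl) ht
      have hlen : t.length ≤ N := by
        have : l.length = s.length + (x :: t).length := by rw [h1]; simp
        simp at this
        omega
      obtain ⟨t', ht1, ht2, ht3, ht4⟩ := ih u y t hlen hu1
      have ht0 : t ≠ [] := ht
      obtain ⟨b, tt, htt⟩ : ∃ b tt, t = b :: tt := by
        cases t with
        | nil => exact absurd rfl ht
        | cons b tt => exact ⟨b, tt, rfl⟩
      obtain ⟨b', tt', htt'⟩ : ∃ b tt, t' = b :: tt := by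
        cases t' with
        | nil =>
          obtain ⟨_, h, _⟩ := ht1
          simp at h
        | cons b tt => exact ⟨b, tt, rfl⟩
      have hb : b = u := walk_nil_left (by rw [htt] at hu1; exact hu1)
      have hb' : b' = u := walk_nil_left (by rw [htt'] at ht1; exact ht1)
      refine ⟨x :: t', ⟨?_, by simp, ?_⟩, ?_, ?_, ?_⟩
      · rw [htt', List.isChain_cons_cons, ← htt']
        exact ⟨by rw [hb']; exact hu2, ht1.1⟩
      · rw [htt']
        have := ht1.2.2
        rw [htt'] at this
        simpa using this
      · rw [List.nodup_cons]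
        exact ⟨fun h => h2 (ht3 x h), ht2⟩
      · intro z hz
        rcases List.mem_cons.1 hz with rfl | hz
        · exact hxl
        · rw [h1]
          have := ht3 z hz
          simp [this]
      · have e1 : cost dead (x :: t') ≤ cost dead (x :: t) := by
          have hbb : b' = b := hb'.trans hb.symm
          subst hbb
          rw [htt', htt] at ht4
          rw [htt', htt]
          simp only [cost]
          omega
        omega

/-- Every dead visit kills at most two steps. -/
theorem cost_count {X : Type*} (dead : Set X) [DecidablePred (· ∈ dead)] (l : List X) :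
    l.length ≤ cost dead l + 2 * l.countP (fun z => decide (z ∈ dead)) + 1 := by
  have key : ∀ (l : List X) (x : X), (x :: l).length + (if x ∈ dead then 1 else 0) ≤
      cost dead (x :: l) + 2 * (x :: l).countP (fun z => decide (z ∈ dead)) + 1 := by
    intro l
    induction l with
    | nil =>
      intro x
      simp only [cost, List.countP_cons, List.countP_nil, List.length_cons, List.length_nil]
      by_cases hx : x ∈ dead <;> simp [hx]
    | cons y l ih =>
      intro x
      have h := ih y
      rw [List.countP_cons]
      simp only [cost, List.length_cons] at h ⊢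
      by_cases hx : x ∈ dead <;> by_cases hy : y ∈ dead <;> simp [hx, hy] at h ⊢ <;> omega
  cases l with
  | nil => simp
  | cons x l =>
    have := key l x
    split_ifs at this <;> omega

/-- The sites of a walk with at most `R` steps are within `R` of its first site. -/
theorem walk_ball {X : Type*} (adj : X → X → Prop) (δ : X → X → ℝ)
    (δ0 : ∀ x, δ x x = 0) (δt : ∀ x y z, δ x z ≤ δ x y + δ y z)
    (hadj : ∀ x y, adj x y → δ x y ≤ 1) :
    ∀ (l : List X) (x : X), List.IsChain adj (x :: l) →
      ∀ z ∈ x :: l, δ x z ≤ l.length := by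
  intro l
  induction l with
  | nil =>
    intro x _ z hz
    simp at hz
    subst hz
    rw [δ0]
    simp
  | cons y l ih =>
    intro x hx z hz
    rw [List.isChain_cons_cons] at hx
    rcases List.mem_cons.1 hz with rfl | hz
    · rw [δ0]
      positivity
    · have h1 := ih y hx.2 z hz
      have h2 := hadj x y hx.1
      have h3 := δt x y z
      push_cast [List.length_cons]
      linarith

/-- Number of visits of a simple walk to a set with at most `h` elements in every ball of
radius `R`. -/
theorem visits {X : Type*} [DecidableEq X] (adj : X → X → Prop) (δ : X → X → ℝ)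
    (δ0 : ∀ x, δ x x = 0) (δt : ∀ x y z, δ x z ≤ δ x y + δ y z)
    (hadj : ∀ x y, adj x y → δ x y ≤ 1) (D : Set X) [DecidablePred (· ∈ D)] (R h : ℕ)
    (hball : ∀ x, ∃ H : Finset X, H.card ≤ h ∧ ∀ z, δ x z ≤ R → z ∈ D → z ∈ H) :
    ∀ (k : ℕ) (l : List X), l.Nodup → List.IsChain adj l → l.length ≤ k * (R + 1) →
      l.countP (fun z => decide (z ∈ D)) ≤ k * h := by
  intro k
  induction k with
  | zero =>
    intro l _ _ hl
    have : l = [] := List.length_eq_zero_iff.1 (by omega)
    subst this
    simp
  | succ k ih =>
    intro l hn hc hl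
    have hsplit : l = l.take (R + 1) ++ l.drop (R + 1) := (List.take_append_drop _ _).symm
    have h1 : (l.drop (R + 1)).countP (fun z => decide (z ∈ D)) ≤ k * h := by
      refine ih _ ?_ ?_ ?_
      · exact hn.sublist (List.drop_sublist _ _)
      · rw [hsplit] at hc
        exact hc.right_of_append
      · rw [List.length_drop]
        have : (k + 1) * (R + 1) = k * (R + 1) + (R + 1) := by ring
        omega
    have h2 : (l.take (R + 1)).countP (fun z => decide (z ∈ D)) ≤ h := by
      rcases hl0 : l.take (R + 1) with _ | ⟨x, t⟩
      · simp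
      · obtain ⟨H, hH1, hH2⟩ := hball x
        have hch : List.IsChain adj (x :: t) := by
          rw [← hl0]
          rw [hsplit] at hc
          exact hc.left_of_append
        have hnd : (x :: t).Nodup := by
          rw [← hl0]
          exact hn.sublist (List.take_sublist _ _)
        have hlen : t.length ≤ R := by
          have : (x :: t).length ≤ R + 1 := by
            rw [← hl0, List.length_take]
            omega
          simpa using this
        have hz : ∀ z ∈ x :: t, δ x z ≤ R := by
          intro z hz
          have := walk_ball adj δ δ0 δt hadj t x hch z hz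
          have h3 : (t.length : ℝ) ≤ R := by exact_mod_cast hlen
          linarith
        refine le_trans ?_ hH1
        rw [List.countP_eq_length_filter]
        have hnf : ((x :: t).filter (fun z => decide (z ∈ D))).Nodup := hnd.filter _
        have hcard := List.toFinset_card_of_nodup hnf
        rw [← hcard]
        refine Finset.card_le_card ?_
        intro z hz'
        rw [List.mem_toFinset, List.mem_filter] at hz'
        exact hH2 z (hz z hz'.1) (by simpa using hz'.2)
    calc l.countP (fun z => decide (z ∈ D))
        = (l.take (R + 1)).countP (fun z => decide (z ∈ D)) +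
          (l.drop (R + 1)).countP (fun z => decide (z ∈ D)) := by
          rw [← List.countP_append, ← hsplit]
      _ ≤ (k + 1) * h := by
          have : (k + 1) * h = k * h + h := by ring
          omega

/-- The same with a real bound. -/
theorem visits' {X : Type*} [DecidableEq X] (adj : X → X → Prop) (δ : X → X → ℝ)
    (δ0 : ∀ x, δ x x = 0) (δt : ∀ x y z, δ x z ≤ δ x y + δ y z)
    (hadj : ∀ x y, adj x y → δ x y ≤ 1) (D : Set X) [DecidablePred (· ∈ D)] (R h : ℕ)
    (hball : ∀ x, ∃ H : Finset X, H.card ≤ h ∧ ∀ z, δ x z ≤ R → z ∈ D → z ∈ H)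
    (l : List X) (hn : l.Nodup) (hc : List.IsChain adj l) :
    ((l.countP (fun z => decide (z ∈ D)) : ℕ) : ℝ) ≤ h * (l.length / (R + 1) + 1) := by
  have h1 := visits adj δ δ0 δt hadj D R h hball (l.length / (R + 1) + 1) l hn hc (by
    have := Nat.div_add_mod l.length (R + 1)
    have h2 : l.length % (R + 1) < R + 1 := Nat.mod_lt l.length (by omega)
    have : (l.length / (R + 1) + 1) * (R + 1) =
      (R + 1) * (l.length / (R + 1)) + (R + 1) := by ring
    omega)
  have h2 : ((l.length / (R + 1) : ℕ) : ℝ) ≤ (l.length : ℝ) / (R + 1) := by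
    have := @Nat.cast_div_le ℝ _ _ _ l.length (R + 1)
    push_cast at this
    exact this
  calc ((l.countP (fun z => decide (z ∈ D)) : ℕ) : ℝ) ≤
        (((l.length / (R + 1) + 1) * h : ℕ) : ℝ) := by exact_mod_cast h1
    _ = (((l.length / (R + 1) : ℕ) : ℝ) + 1) * h := by push_cast; ring
    _ ≤ (l.length / (R + 1) + 1) * h := by
        refine mul_le_mul_of_nonneg_right (by linarith) (by positivity)
    _ = _ := by ring

/-- Length of a walk against the distance. -/
theorem walk_length {X : Type*} (adj : X → X → Prop) (δ : X → X → ℝ)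
    (δ0 : ∀ x, δ x x = 0) (δt : ∀ x y z, δ x z ≤ δ x y + δ y z)
    (hadj : ∀ x y, adj x y → δ x y ≤ 1) (x y : X) (l : List X) (hl : IsWalk adj x y l) :
    δ x y + 1 ≤ l.length := by
  cases l with
  | nil =>
    obtain ⟨_, h, _⟩ := hl
    simp at h
  | cons a l =>
    have ha : a = x := walk_nil_left hl
    subst ha
    have hy : y ∈ a :: l := by
      have := hl.2.2
      exact List.mem_of_getLast? this
    have := walk_ball adj δ δ0 δt hadj l a hl.1 y hy
    push_cast [List.length_cons]
    linarith

/-- **The alive metric, all levels at once, additive version.** The dead set is the union of the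
sets `D i`, `i ∈ I`; every ball of radius `R i` contains at most `h i` elements of `D i`. Then every
walk from `x` to `y` has at least `(1 - 2 ∑ h i / (R i + 1)) (δ x y + 1) - 1 - 2 ∑ h i` alive
steps. -/
theorem cost_add {X ι : Type*} [DecidableEq X] (adj : X → X → Prop) (δ : X → X → ℝ)
    (δ0 : ∀ x, δ x x = 0) (δt : ∀ x y z, δ x z ≤ δ x y + δ y z)
    (hadj : ∀ x y, adj x y → δ x y ≤ 1) (I : Finset ι) (D : ι → Set X) (R h : ι → ℕ)
    (hball : ∀ i ∈ I, ∀ x, ∃ H : Finset X, H.card ≤ h i ∧ ∀ z, δ x z ≤ R i → z ∈ D i → z ∈ H)
    (hsum : 2 * ∑ i ∈ I, (h i : ℝ) / (R i + 1) ≤ 1)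
    (x y : X) (l : List X) (hl : IsWalk adj x y l) :
    (1 - 2 * ∑ i ∈ I, (h i : ℝ) / (R i + 1)) * (δ x y + 1) - 1 - 2 * ∑ i ∈ I, (h i : ℝ) ≤
      cost (⋃ i ∈ I, D i) l := by
  classical
  set dead : Set X := ⋃ i ∈ I, D i with hdead
  obtain ⟨l', h1, h2, _, h4⟩ := loop_erase adj dead l.length x y l le_rfl hl
  have h5 := cost_count dead l'
  have h6 : ((l'.countP (fun z => decide (z ∈ dead)) : ℕ) : ℝ) ≤
      ∑ i ∈ I, (h i : ℝ) * (l'.length / (R i + 1) + 1) := by
    have h7 : l'.countP (fun z => decide (z ∈ dead)) ≤
        ∑ i ∈ I, l'.countP (fun z => decide (z ∈ D i)) := by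
      have : ∀ t : List X, t.countP (fun z => decide (z ∈ dead)) ≤
        ∑ i ∈ I, t.countP (fun z => decide (z ∈ D i)) := by
        intro t
        induction t with
        | nil => simp
        | cons a t ih =>
          simp only [List.countP_cons, sum_add_distrib]
          refine add_le_add ih ?_
          by_cases ha : a ∈ dead
          · rw [hdead] at ha
            simp only [Set.mem_iUnion, exists_prop] at ha
            obtain ⟨i, hi, hai⟩ := ha
            have h8 : (if decide (a ∈ D i) = true then 1 else 0) ≤
                ∑ i ∈ I, (if decide (a ∈ D i) = true then 1 else 0) :=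
              Finset.single_le_sum (f := fun i => (if decide (a ∈ D i) = true then 1 else 0))
                (fun _ _ => Nat.zero_le _) hi
            have h9 : (if decide (a ∈ D i) = true then 1 else 0) = 1 := by simp [hai]
            rw [h9] at h8
            refine le_trans ?_ h8
            split_ifs <;> simp
          · simp [ha]
      exact this l'
    calc ((l'.countP (fun z => decide (z ∈ dead)) : ℕ) : ℝ) ≤
          ((∑ i ∈ I, l'.countP (fun z => decide (z ∈ D i)) : ℕ) : ℝ) := by exact_mod_cast h7
      _ = ∑ i ∈ I, ((l'.countP (fun z => decide (z ∈ D i)) : ℕ) : ℝ) := by push_cast; rfl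
      _ ≤ _ := by
          refine Finset.sum_le_sum ?_
          intro i hi
          exact visits' adj δ δ0 δt hadj (D i) (R i) (h i) (hball i hi) l' h2 h1.1
  have h7 : ∑ i ∈ I, (h i : ℝ) * (l'.length / (R i + 1) + 1) =
      l'.length * ∑ i ∈ I, (h i : ℝ) / (R i + 1) + ∑ i ∈ I, (h i : ℝ) := by
    rw [Finset.mul_sum, ← Finset.sum_add_distrib]
    refine Finset.sum_congr rfl ?_
    intro i _
    ring
  rw [h7] at h6
  have h8 := walk_length adj δ δ0 δt hadj x y l' h1
  have h9 : (l'.length : ℝ) ≤ cost dead l' + 2 * (l'.countP (fun z => decide (z ∈ dead)) : ℕ) + 1 := by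
    exact_mod_cast h5
  have h10 : (cost dead l' : ℝ) ≤ cost dead l := by exact_mod_cast h4
  set S : ℝ := ∑ i ∈ I, (h i : ℝ) / (R i + 1) with hS
  have h11 : (1 - 2 * S) * (δ x y + 1) ≤ (1 - 2 * S) * l'.length :=
    mul_le_mul_of_nonneg_left h8 (by linarith)
  linarith

end Pool.Agent.ACN
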