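import Mathlib

open Finset

namespace Pool.Agent.ACN

/-- Greedy selection: if every class has at most `b` elements and `Y` has more than `n * b`
elements, then there are `n + 1` elements of `Y`, pairwise unrelated. -/
theorem greedy {X : Type*} [DecidableEq X] (r : X → X → Prop) (hs : ∀ x y, r x y → r y x)
    (b : ℕ) :
    ∀ (n : ℕ) (Y : Finset X), (∀ y ∈ Y, ∀ V : Finset X, V ⊆ Y → (∀ z ∈ V, r y z) → V.card ≤ b) →
      n * b < Y.card →
      ∃ f : Fin (n + 1) → X, (∀ i, f i ∈ Y) ∧ ∀ i j, i ≠ j → ¬ r (f i) (f j) := by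
  classical
  intro n
  induction n with
  | zero =>
    intro Y _ hY
    have hne : Y.Nonempty := by
      rw [← Finset.card_pos]
      omega
    obtain ⟨y, hy⟩ := hne
    refine ⟨fun _ => y, fun _ => hy, ?_⟩
    intro i j hij
    exact absurd (Fin.ext (by omega)) hij
  | succ n ih =>
    intro Y hb hY
    have hne : Y.Nonempty := by
      rw [← Finset.card_pos]
      omega
    obtain ⟨y, hy⟩ := hne
    set V := Y.filter (fun z => r y z) with hV
    set Y' := Y.filter (fun z => ¬ r y z) with hY'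
    have hcard : V.card + Y'.card = Y.card := by
      rw [hV, hY']
      exact card_filter_add_card_filter_not (s := Y) (fun z => r y z)
    have hVb : V.card ≤ b := hb y hy V (filter_subset _ _) (fun z hz => (mem_filter.1 hz).2)
    have hlt : n * b < Y'.card := by
      have : (n + 1) * b = n * b + b := by ring
      omega
    obtain ⟨f, hf1, hf2⟩ := ih Y' (fun z hz V' hV' hr =>
      hb z (filter_subset _ _ hz) V' (fun w hw => filter_subset _ _ (hV' hw)) hr) hlt
    refine ⟨Fin.cons y f, ?_, ?_⟩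
    · intro i
      refine Fin.cases ?_ ?_ i
      · simpa using hy
      · intro i
        simpa using filter_subset _ _ (hf1 i)
    · intro i j
      refine Fin.cases ?_ ?_ i
      · refine Fin.cases ?_ ?_ j
        · intro h
          exact absurd rfl h
        · intro j _
          simp only [Fin.cons_zero, Fin.cons_succ]
          exact (mem_filter.1 (hf1 j)).2
      · intro i
        refine Fin.cases ?_ ?_ j
        · intro _
          simp only [Fin.cons_zero, Fin.cons_succ]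
          intro h
          exact (mem_filter.1 (hf1 i)).2 (hs _ _ h)
        · intro j hij
          simp only [Fin.cons_succ]
          refine hf2 i j ?_
          rintro rfl
          exact hij rfl

/-- Two sites of `Z` at distance at most `D` are linked. -/
def Link {X : Type*} (δ : X → X → ℝ) (D : ℝ) (Z : Set X) (a b : X) : Prop :=
  a ∈ Z ∧ b ∈ Z ∧ δ a b ≤ D

/-- The component of `x` in `Z` for the link distance `D`. -/
def comp {X : Type*} (δ : X → X → ℝ) (D : ℝ) (Z : Set X) (x : X) : Set X :=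
  {y | Relation.ReflTransGen (Link δ D Z) x y}

theorem self_mem_comp {X : Type*} (δ : X → X → ℝ) (D : ℝ) (Z : Set X) (x : X) :
    x ∈ comp δ D Z x := Relation.ReflTransGen.refl

theorem comp_subset {X : Type*} (δ : X → X → ℝ) (D : ℝ) (Z : Set X) {x y : X} (hx : x ∈ Z)
    (hy : y ∈ comp δ D Z x) : y ∈ Z := by
  change Relation.ReflTransGen (Link δ D Z) x y at hy
  induction hy with
  | refl => exact hx
  | tail _ h _ => exact h.2.1

theorem comp_symm {X : Type*} (δ : X → X → ℝ) (δs : ∀ x y, δ x y = δ y x) (D : ℝ) (Z : Set X)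
    {x y : X} (hy : y ∈ comp δ D Z x) : x ∈ comp δ D Z y := by
  change Relation.ReflTransGen (Link δ D Z) x y at hy
  change Relation.ReflTransGen (Link δ D Z) y x
  induction hy with
  | refl => exact Relation.ReflTransGen.refl
  | tail _ h ih =>
    refine Relation.ReflTransGen.head ?_ ih
    exact ⟨h.2.1, h.1, by rw [δs]; exact h.2.2⟩

theorem comp_trans {X : Type*} (δ : X → X → ℝ) (D : ℝ) (Z : Set X)
    {x y z : X} (hy : y ∈ comp δ D Z x) (hz : z ∈ comp δ D Z y) : z ∈ comp δ D Z x :=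
  Relation.ReflTransGen.trans hy hz

theorem comp_eq {X : Type*} (δ : X → X → ℝ) (δs : ∀ x y, δ x y = δ y x) (D : ℝ) (Z : Set X)
    {x y : X} (hy : y ∈ comp δ D Z x) : comp δ D Z y = comp δ D Z x := by
  ext z
  constructor
  · intro hz
    exact comp_trans δ D Z hy hz
  · intro hz
    exact comp_trans δ D Z (comp_symm δ δs D Z hy) hz

/-- `x` is crowded: `J` sites of `Z` within distance `L` of `x`, pairwise at distance more than
`sep`. -/
def Crowded {X : Type*} (δ : X → X → ℝ) (J : ℕ) (L sep : ℝ) (Z : Set X) (x : X) : Prop :=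
  ∃ y : Fin J → X, (∀ i, y i ∈ Z ∧ δ x (y i) ≤ L) ∧ ∀ i j, i ≠ j → sep < δ (y i) (y j)

/-- The component of `x` is eligible: it has at most `N` sites, and there are no `J` pairwise
unlinked sites of `Z` within distance `R` of the component. -/
def Elig {X : Type*} (δ : X → X → ℝ) (D R : ℝ) (N J : ℕ) (Z : Set X) (x : X) : Prop :=
  (comp δ D Z x).ncard ≤ N ∧
    ¬ ∃ u : Fin J → X, (∀ i, u i ∈ Z ∧ ∃ v ∈ comp δ D Z x, δ v (u i) ≤ R) ∧
      ∀ i j, i ≠ j → u j ∉ comp δ D Z (u i)

theorem elig_congr {X : Type*} (δ : X → X → ℝ) (δs : ∀ x y, δ x y = δ y x) (D R : ℝ) (N J : ℕ)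
    (Z : Set X) {x y : X} (hy : y ∈ comp δ D Z x) : Elig δ D R N J Z y ↔ Elig δ D R N J Z x := by
  unfold Elig
  rw [comp_eq δ δs D Z hy]

/-- Crossing: the component meets every annulus of width `D` up to its extent. -/
theorem crossing {X : Type*} (δ : X → X → ℝ) (δ0 : ∀ x, δ x x = 0)
    (δt : ∀ x y z, δ x z ≤ δ x y + δ y z) (D : ℝ) (hD : 0 ≤ D) (Z : Set X) (x y : X)
    (hy : y ∈ comp δ D Z x) :
    ∀ τ : ℝ, 0 ≤ τ → τ ≤ δ x y → ∃ z ∈ comp δ D Z x, τ ≤ δ x z ∧ δ x z ≤ τ + D := by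
  change Relation.ReflTransGen (Link δ D Z) x y at hy
  induction hy with
  | refl =>
    intro τ h0 h1
    rw [δ0] at h1
    refine ⟨x, Relation.ReflTransGen.refl, ?_, ?_⟩
    · rw [δ0]; exact h1
    · rw [δ0]; linarith
  | @tail b c hb h ih =>
    intro τ h0 h1
    by_cases hcase : τ ≤ δ x b
    · exact ih τ h0 hcase
    · have h2 := δt x b c
      have h3 := h.2.2
      have hcase' := not_le.1 hcase
      exact ⟨c, Relation.ReflTransGen.tail hb h, h1, by linarith⟩

/-- Extent of the component of a site which is not crowded. -/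
theorem extent {X : Type*} (δ : X → X → ℝ) (δ0 : ∀ x, δ x x = 0)
    (δs : ∀ x y, δ x y = δ y x)
    (δt : ∀ x y z, δ x z ≤ δ x y + δ y z) (D sep L : ℝ) (J : ℕ) (hD : 0 ≤ D) (hsep : 0 ≤ sep)
    (hL : (J : ℝ) * (sep + D + 1) ≤ L) (Z : Set X) (x : X) (hx : x ∈ Z)
    (hnc : ¬ Crowded δ J L sep Z x) :
    ∀ y ∈ comp δ D Z x, δ x y ≤ (J : ℝ) * (sep + D + 1) := by
  intro y hy
  by_contra hcon
  have hcon' := not_le.1 hcon
  apply hnc
  have hJ : 1 ≤ J := by
    by_contra h
    have : J = 0 := by omega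
    subst this
    exact hnc ⟨Fin.elim0, fun i => i.elim0, fun i => i.elim0⟩
  have key : ∀ a : Fin J, ∃ z ∈ comp δ D Z x, (a : ℝ) * (sep + D + 1) ≤ δ x z ∧
      δ x z ≤ (a : ℝ) * (sep + D + 1) + D := by
    intro a
    refine crossing δ δ0 δt D hD Z x y hy _ (by positivity) ?_
    have h1 : ((a : ℕ) : ℝ) ≤ (J : ℝ) := by exact_mod_cast a.2.le
    have h2 : (a : ℝ) * (sep + D + 1) ≤ (J : ℝ) * (sep + D + 1) :=
      mul_le_mul_of_nonneg_right h1 (by positivity)
    linarith
  choose z hz1 hz2 hz3 using key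
  refine ⟨z, ?_, ?_⟩
  · intro i
    refine ⟨comp_subset δ D Z hx (hz1 i), ?_⟩
    have h1 : ((i : ℕ) : ℝ) + 1 ≤ (J : ℝ) := by exact_mod_cast i.2
    have h2 : ((i : ℝ) + 1) * (sep + D + 1) ≤ (J : ℝ) * (sep + D + 1) :=
      mul_le_mul_of_nonneg_right h1 (by positivity)
    have h3 := hz3 i
    nlinarith
  · have main : ∀ i j : Fin J, i < j → sep < δ (z i) (z j) := by
      intro i j hij
      have h1 : ((i : ℕ) : ℝ) + 1 ≤ ((j : ℕ) : ℝ) := by exact_mod_cast hij
      have h2 : ((i : ℝ) + 1) * (sep + D + 1) ≤ (j : ℝ) * (sep + D + 1) :=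
        mul_le_mul_of_nonneg_right h1 (by positivity)
      have h3 := hz3 i
      have h4 := hz2 j
      have h5 := δt x (z i) (z j)
      nlinarith
    intro i j hij
    rcases lt_or_gt_of_ne hij with h | h
    · exact main i j h
    · rw [δs]; exact main j i h

/-- **Eligibility of the sites which are not crowded.** -/
theorem elig_of_not_crowded {X : Type*} [Finite X] [DecidableEq X] (δ : X → X → ℝ)
    (δ0 : ∀ x, δ x x = 0) (δs : ∀ x y, δ x y = δ y x)
    (δt : ∀ x y z, δ x z ≤ δ x y + δ y z) (D R sep L : ℝ) (J b : ℕ) (hD : 0 ≤ D)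
    (hsep : 0 ≤ sep) (hsD : sep ≤ D)
    (hb : ∀ x, {y | δ x y ≤ sep}.ncard ≤ b)
    (hR : 0 ≤ R) (hL : (J : ℝ) * (sep + D + 1) + R ≤ L) (Z : Set X) (x : X) (hx : x ∈ Z)
    (hnc : ¬ Crowded δ J L sep Z x) : Elig δ D R (J * b) J Z x := by
  classical
  have hext := extent δ δ0 δs δt D sep L J hD hsep (by linarith) Z x hx hnc
  have hJ : 1 ≤ J := by
    by_contra h
    have : J = 0 := by omega
    subst this
    exact hnc ⟨Fin.elim0, fun i => i.elim0, fun i => i.elim0⟩
  refine ⟨?_, ?_⟩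
  · by_contra hcon
    have hcon' := not_le.1 hcon
    have hfin : (comp δ D Z x).Finite := Set.toFinite _
    rw [Set.ncard_eq_toFinset_card _ hfin] at hcon'
    have hlt : (J - 1) * b < hfin.toFinset.card := by
      refine lt_of_le_of_lt ?_ hcon'
      exact Nat.mul_le_mul_right _ (by omega)
    obtain ⟨f, hf1, hf2⟩ := greedy (fun u v => δ u v ≤ sep) (fun u v h => by rw [δs]; exact h) b
      (J - 1) hfin.toFinset (by
        intro y _ V _ hV
        refine le_trans ?_ (hb y)
        have h1 : (V : Set X) ⊆ {z | δ y z ≤ sep} := fun z hz => hV z hz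
        have h2 := Set.ncard_le_ncard h1 (Set.toFinite _)
        rwa [Set.ncard_coe_finset] at h2) hlt
    apply hnc
    have hJ1 : J - 1 + 1 = J := by omega
    refine ⟨fun i => f (Fin.cast hJ1.symm i), ?_, ?_⟩
    · intro i
      have h1 := hf1 (Fin.cast hJ1.symm i)
      rw [Set.Finite.mem_toFinset] at h1
      refine ⟨comp_subset δ D Z hx h1, ?_⟩
      have := hext _ h1
      linarith
    · intro i j hij
      have h1 := hf2 (Fin.cast hJ1.symm i) (Fin.cast hJ1.symm j) (by
        intro h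
        apply hij
        exact Fin.cast_injective _ h)
      exact not_le.1 h1
  · rintro ⟨u, hu1, hu2⟩
    apply hnc
    refine ⟨u, ?_, ?_⟩
    · intro i
      obtain ⟨hz, v, hv, hv2⟩ := hu1 i
      refine ⟨hz, ?_⟩
      have h1 := hext v hv
      have h2 := δt x v (u i)
      linarith
    · intro i j hij
      by_contra hcon
      have hcon' := not_lt.1 hcon
      apply hu2 i j hij
      exact Relation.ReflTransGen.single ⟨(hu1 i).1, (hu1 j).1, by linarith⟩

/-- In a ball of radius `R / 2` there are no `J` pairwise unlinked eligible sites. -/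
theorem few_eligible {X : Type*} (δ : X → X → ℝ) (δs : ∀ x y, δ x y = δ y x)
    (δt : ∀ x y z, δ x z ≤ δ x y + δ y z) (D R : ℝ) (N J : ℕ) (hJ : 1 ≤ J) (Z : Set X)
    (z : X) (u : Fin J → X) (hu : ∀ i, u i ∈ Z ∧ Elig δ D R N J Z (u i) ∧ δ z (u i) ≤ R / 2) :
    ∃ i j, i ≠ j ∧ u j ∈ comp δ D Z (u i) := by
  by_contra hcon
  push Not at hcon
  apply (hu ⟨0, hJ⟩).2.1.2
  refine ⟨u, ?_, hcon⟩
  intro i
  refine ⟨(hu i).1, u ⟨0, hJ⟩, self_mem_comp _ _ _ _, ?_⟩
  have h1 := (hu ⟨0, hJ⟩).2.2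
  have h2 := (hu i).2.2
  have h3 := δt (u ⟨0, hJ⟩) z (u i)
  rw [δs (u ⟨0, hJ⟩) z] at h3
  linarith

/-- **Few dead sites in a ball.** Every site of `V` (dead sites in a ball of radius `R / 2 - D'`)
belongs to the kill set `K u` of an eligible site `u` within distance `D'`; `K` depends on the
component only and has at most `n` elements. Then `V` has at most `J * n` elements. -/
theorem few_dead {X : Type*} [DecidableEq X] (δ : X → X → ℝ) (δs : ∀ x y, δ x y = δ y x)
    (δt : ∀ x y z, δ x z ≤ δ x y + δ y z) (D R D' : ℝ) (N J n : ℕ) (hJ : 1 ≤ J) (Z : Set X)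
    (K : X → Finset X) (hK : ∀ u v, v ∈ comp δ D Z u → K v = K u) (hKn : ∀ u, (K u).card ≤ n)
    (z : X) (V : Finset X)
    (hV : ∀ v ∈ V, δ z v ≤ R / 2 - D' ∧ ∃ u ∈ Z, Elig δ D R N J Z u ∧ v ∈ K u ∧ δ v u ≤ D') :
    V.card ≤ J * n := by
  classical
  by_contra hcon
  have hcon' := not_le.1 hcon
  have hch : ∀ v : X, ∃ u : X, v ∈ V → (u ∈ Z ∧ Elig δ D R N J Z u ∧ v ∈ K u ∧ δ v u ≤ D') := by
    intro v
    by_cases hv : v ∈ V
    · obtain ⟨_, u, h1, h2, h3, h4⟩ := hV v hv
      exact ⟨u, fun _ => ⟨h1, h2, h3, h4⟩⟩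
    · exact ⟨v, fun h => absurd h hv⟩
  choose g hg using hch
  have hlt : (J - 1) * n < V.card := by
    refine lt_of_le_of_lt ?_ hcon'
    exact Nat.mul_le_mul_right _ (by omega)
  obtain ⟨f, hf1, hf2⟩ := greedy (fun v w => g w ∈ comp δ D Z (g v))
    (fun v w h => comp_symm δ δs D Z h) n (J - 1) V (by
      intro v _ W hW hr
      have h1 : W ⊆ K (g v) := by
        intro w hw
        have h2 := hg w (hW hw)
        have h3 := hK (g v) (g w) (hr w hw)
        rw [← h3]
        exact h2.2.2.1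
      exact le_trans (card_le_card h1) (hKn _)) hlt
  have hJ1 : J - 1 + 1 = J := by omega
  obtain ⟨i, j, hij, hmem⟩ := few_eligible δ δs δt D R N J hJ Z z
    (fun i => g (f (Fin.cast hJ1.symm i))) (by
      intro i
      have h1 := hf1 (Fin.cast hJ1.symm i)
      have h2 := hg _ h1
      refine ⟨h2.1, h2.2.1, ?_⟩
      have h3 := (hV _ h1).1
      have h4 := δt z (f (Fin.cast hJ1.symm i)) (g (f (Fin.cast hJ1.symm i)))
      have h5 := h2.2.2.2
      linarith)
  refine hf2 (Fin.cast hJ1.symm i) (Fin.cast hJ1.symm j) (fun h => hij (Fin.cast_injective _ h)) ?_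
  exact hmem

/-- What is crowded belongs to the next bad set. -/
theorem crowded_bad {X : Type*} (δ : X → X → ℝ) (J : ℕ) (L sep : ℝ) (Z T BB : Set X)
    (hZ : Z ⊆ T ∪ BB) (x : X) (hc : Crowded δ J L sep Z x) :
    (∃ y ∈ BB, δ x y ≤ L) ∨
      ∃ y : Fin J → X, (∀ i, δ x (y i) ≤ L ∧ y i ∈ T) ∧ ∀ i j, i ≠ j → sep < δ (y i) (y j) := by
  obtain ⟨y, h1, h2⟩ := hc
  by_cases h : ∃ i, y i ∈ BB
  · obtain ⟨i, hi⟩ := h
    exact Or.inl ⟨y i, hi, (h1 i).2⟩
  · push Not at h
    refine Or.inr ⟨y, fun i => ⟨(h1 i).2, ?_⟩, h2⟩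
    rcases hZ (h1 i).1 with h3 | h3
    · exact h3
    · exact absurd h3 (h i)

end Pool.Agent.ACN
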