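import Mathlib

open MeasureTheory Finset
open scoped ENNReal BigOperators

namespace Pool.Agent.ACN

/-- The bad set of level `m` as a family of events: `Tset .. m x` is the event that the site `x` is
`m`-bad: an elementary bad event of level `m` happens near `x`, or (for `m >= 1`) within distance
`L m` of `x` there are `J` sites which are `(m-1)`-bad and at pairwise distance more than
`sep (m-1)`. -/
def Tset {X E Ω : Type*} (δ : X → X → ℝ) (B : E → Set Ω) (near : ℕ → X → Finset E) (J : ℕ)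
    (L sep : ℕ → ℝ) : ℕ → X → Set Ω
  | 0, x => {ω | ∃ e ∈ near 0 x, ω ∈ B e}
  | (m + 1), x => {ω | (∃ e ∈ near (m + 1) x, ω ∈ B e) ∨
      ∃ y : Fin J → X, (∀ i, δ x (y i) ≤ L (m + 1) ∧ ω ∈ Tset δ B near J L sep m (y i)) ∧
        ∀ i j, i ≠ j → sep m < δ (y i) (y j)}

/-- The mixed statement used in the induction step. -/
theorem tset_step {X E Ω : Type*} [Fintype X] [DecidableEq X] [DecidableEq E]
    [MeasurableSpace Ω] (μ : Measure Ω) (δ : X → X → ℝ) (δ0 : ∀ x, δ x x = 0)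
    (δs : ∀ x y, δ x y = δ y x) (δt : ∀ x y z, δ x z ≤ δ x y + δ y z)
    (B : E → Set Ω) (near : ℕ → X → Finset E) (pos : E → X) (J : ℕ) (L sep ρ : ℕ → ℝ)
    (hρ0 : ∀ m, 0 ≤ ρ m) (hnear : ∀ m x, ∀ e ∈ near m x, δ x (pos e) ≤ ρ m)
    (hρ : ∀ m, L (m + 1) + ρ m ≤ ρ (m + 1)) (hsep : ∀ m, 2 * ρ m ≤ sep m)
    (p : E → ℝ≥0∞) (W : ℕ → ℝ≥0∞) (m : ℕ)
    (hW : ∀ x, ∑ e ∈ near (m + 1) x, p e +
      (((univ.filter (fun y => δ x y ≤ L (m + 1))).card : ℝ≥0∞) * W m) ^ J ≤ W (m + 1))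
    (IH : ∀ (S : Finset E) (P : Finset X), (∀ e ∈ S, ∀ x ∈ P, ρ m < δ (pos e) x) →
      (∀ x ∈ P, ∀ y ∈ P, x ≠ y → 2 * ρ m < δ x y) →
      μ ((⋂ e ∈ S, B e) ∩ ⋂ x ∈ P, Tset δ B near J L sep m x) ≤
        (∏ e ∈ S, p e) * (W m) ^ P.card) :
    ∀ (P : Finset X) (S : Finset E) (P0 : Finset X),
      (∀ e ∈ S, ∀ x ∈ P, ρ (m + 1) < δ (pos e) x) →
      (∀ e ∈ S, ∀ y ∈ P0, ρ m < δ (pos e) y) →
      (∀ x ∈ P, ∀ y ∈ P, x ≠ y → 2 * ρ (m + 1) < δ x y) →
      (∀ x ∈ P0, ∀ y ∈ P0, x ≠ y → 2 * ρ m < δ x y) →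
      (∀ x ∈ P, ∀ y ∈ P0, ρ m + ρ (m + 1) < δ x y) →
      μ (((⋂ e ∈ S, B e) ∩ ⋂ x ∈ P0, Tset δ B near J L sep m x) ∩
        ⋂ x ∈ P, Tset δ B near J L sep (m + 1) x) ≤
        (∏ e ∈ S, p e) * (W m) ^ P0.card * (W (m + 1)) ^ P.card := by
  classical
  intro P
  induction P using Finset.induction_on with
  | empty =>
    intro S P0 _ h2 _ h4 _
    have h := IH S P0 h2 h4
    simpa using h
  | insert x P hx ih =>
    intro S P0 h1 h2 h3 h4 h5
    set T : ℕ → X → Set Ω := Tset δ B near J L sep with hT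
    -- the tuples
    set Y : Finset (Fin J → X) := univ.filter (fun y => (∀ i, δ x (y i) ≤ L (m + 1)) ∧
      ∀ i j, i ≠ j → sep m < δ (y i) (y j)) with hY
    have hYcard : (Y.card : ℝ≥0∞) ≤
        ((univ.filter (fun y => δ x y ≤ L (m + 1))).card : ℝ≥0∞) ^ J := by
      have h1' : Y ⊆ Fintype.piFinset (fun _ : Fin J => univ.filter (fun y => δ x y ≤ L (m + 1))) := by
        intro y hy
        rw [hY, mem_filter] at hy
        rw [Fintype.mem_piFinset]
        intro i
        rw [mem_filter]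
        exact ⟨mem_univ _, hy.2.1 i⟩
      have h2' := card_le_card h1'
      rw [Fintype.card_piFinset] at h2'
      simp only [prod_const, card_univ, Fintype.card_fin] at h2'
      calc (Y.card : ℝ≥0∞) ≤ (((univ.filter (fun y => δ x y ≤ L (m + 1))).card ^ J : ℕ) : ℝ≥0∞) := by
            exact_mod_cast h2'
        _ = _ := by push_cast; rfl
    -- covering
    set base : Set Ω := ((⋂ e ∈ S, B e) ∩ ⋂ x ∈ P0, T m x) ∩ ⋂ x ∈ P, T (m + 1) x with hbase
    have hcov : ((⋂ e ∈ S, B e) ∩ ⋂ x ∈ P0, T m x) ∩ ⋂ z ∈ insert x P, T (m + 1) z ⊆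
        (⋃ e ∈ near (m + 1) x, (((⋂ e' ∈ insert e S, B e') ∩ ⋂ z ∈ P0, T m z) ∩
          ⋂ z ∈ P, T (m + 1) z)) ∪
        (⋃ y ∈ Y, (((⋂ e' ∈ S, B e') ∩ ⋂ z ∈ P0 ∪ univ.image y, T m z) ∩
          ⋂ z ∈ P, T (m + 1) z)) := by
      intro ω hω
      obtain ⟨⟨hS, hP0⟩, hP⟩ := hω
      rw [Set.mem_iInter₂] at hS hP0 hP
      have hxT : ω ∈ T (m + 1) x := hP x (mem_insert_self _ _)
      have hPr : ∀ z ∈ P, ω ∈ T (m + 1) z := fun z hz => hP z (mem_insert_of_mem hz)
      rw [hT] at hxT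
      rcases hxT with ⟨e, he, hBe⟩ | ⟨y, hy1, hy2⟩
      · left
        rw [Set.mem_iUnion₂]
        refine ⟨e, he, ⟨⟨?_, ?_⟩, ?_⟩⟩
        · rw [Set.mem_iInter₂]
          intro e' he'
          rcases mem_insert.1 he' with rfl | he'
          · exact hBe
          · exact hS e' he'
        · rw [Set.mem_iInter₂]; exact hP0
        · rw [Set.mem_iInter₂]; exact hPr
      · right
        rw [Set.mem_iUnion₂]
        refine ⟨y, ?_, ⟨⟨?_, ?_⟩, ?_⟩⟩
        · rw [hY, mem_filter]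
          exact ⟨mem_univ _, fun i => (hy1 i).1, hy2⟩
        · rw [Set.mem_iInter₂]; exact hS
        · rw [Set.mem_iInter₂]
          intro z hz
          rcases mem_union.1 hz with hz | hz
          · exact hP0 z hz
          · obtain ⟨i, _, rfl⟩ := mem_image.1 hz
            exact (hy1 i).2
        · rw [Set.mem_iInter₂]; exact hPr
    refine le_trans (measure_mono hcov) ?_
    refine le_trans (measure_union_le _ _) ?_
    -- useful facts about x
    have hxS : ∀ e ∈ S, ρ (m + 1) < δ (pos e) x := fun e he => h1 e he x (mem_insert_self _ _)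
    have hxP : ∀ z ∈ P, 2 * ρ (m + 1) < δ x z := by
      intro z hz
      refine h3 x (mem_insert_self _ _) z (mem_insert_of_mem hz) ?_
      rintro rfl
      exact hx hz
    have hxP0 : ∀ z ∈ P0, ρ m + ρ (m + 1) < δ x z := fun z hz => h5 x (mem_insert_self _ _) z hz
    have hPP : ∀ z ∈ P, ∀ z' ∈ P, z ≠ z' → 2 * ρ (m + 1) < δ z z' := fun z hz z' hz' hne =>
      h3 z (mem_insert_of_mem hz) z' (mem_insert_of_mem hz') hne
    have hPP0 : ∀ z ∈ P, ∀ y ∈ P0, ρ m + ρ (m + 1) < δ z y := fun z hz y hy =>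
      h5 z (mem_insert_of_mem hz) y hy
    have hSP : ∀ e ∈ S, ∀ z ∈ P, ρ (m + 1) < δ (pos e) z := fun e he z hz =>
      h1 e he z (mem_insert_of_mem hz)
    have hA : μ (⋃ e ∈ near (m + 1) x, (((⋂ e' ∈ insert e S, B e') ∩ ⋂ z ∈ P0, T m z) ∩
          ⋂ z ∈ P, T (m + 1) z)) ≤
        ∑ e ∈ near (m + 1) x, p e * ((∏ e ∈ S, p e) * (W m) ^ P0.card * (W (m + 1)) ^ P.card) := by
      refine le_trans (measure_biUnion_finset_le _ _) ?_
      refine sum_le_sum ?_
      intro e he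
      have hxe : δ x (pos e) ≤ ρ (m + 1) := hnear (m + 1) x e he
      have heS : e ∉ S := by
        intro hmem
        have := hxS e hmem
        rw [δs] at this
        linarith
      have h := ih (insert e S) P0 ?_ ?_ hPP h4 hPP0
      · rw [prod_insert heS] at h
        calc _ ≤ _ := h
          _ = _ := by ring
      · intro e' he' z hz
        rcases mem_insert.1 he' with rfl | he'
        · have a1 := hxP z hz
          have a2 := δt x (pos e') z
          linarith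
        · exact hSP e' he' z hz
      · intro e' he' y hy
        rcases mem_insert.1 he' with rfl | he'
        · have a1 := hxP0 y hy
          have a2 := δt x (pos e') y
          linarith
        · exact h2 e' he' y hy
    have hB : μ (⋃ y ∈ Y, (((⋂ e' ∈ S, B e') ∩ ⋂ z ∈ P0 ∪ univ.image y, T m z) ∩
          ⋂ z ∈ P, T (m + 1) z)) ≤
        ∑ y ∈ Y, (W m) ^ J * ((∏ e ∈ S, p e) * (W m) ^ P0.card * (W (m + 1)) ^ P.card) := by
      refine le_trans (measure_biUnion_finset_le _ _) ?_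
      refine sum_le_sum ?_
      intro y hy
      rw [hY, mem_filter] at hy
      obtain ⟨_, hy1, hy2⟩ := hy
      have hL : L (m + 1) + ρ m ≤ ρ (m + 1) := hρ m
      have hinj : Function.Injective y := by
        intro i j hij
        by_contra hne
        have := hy2 i j hne
        rw [hij, δ0] at this
        have h0 := hρ0 m
        have h00 := hsep m
        linarith
      have hdisj : Disjoint P0 (univ.image y) := by
        rw [Finset.disjoint_left]
        intro z hz hz'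
        obtain ⟨i, _, rfl⟩ := mem_image.1 hz'
        have a1 := hxP0 (y i) hz
        have a2 := hy1 i
        have h0 := hρ0 m
        linarith
      have hcard : (P0 ∪ univ.image y).card = P0.card + J := by
        rw [card_union_of_disjoint hdisj, card_image_of_injective _ hinj, card_univ, Fintype.card_fin]
      have h := ih S (P0 ∪ univ.image y) hSP ?_ hPP ?_ ?_
      · rw [hcard, pow_add] at h
        calc _ ≤ _ := h
          _ = _ := by ring
      · intro e he z hz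
        rcases mem_union.1 hz with hz | hz
        · exact h2 e he z hz
        · obtain ⟨i, _, rfl⟩ := mem_image.1 hz
          have a1 := hxS e he
          have a2 := δt (pos e) (y i) x
          have a3 := hy1 i
          have a4 := δs x (y i)
          linarith
      · intro z hz z' hz' hne
        rcases mem_union.1 hz with hz | hz <;> rcases mem_union.1 hz' with hz' | hz'
        · exact h4 z hz z' hz' hne
        · obtain ⟨i, _, rfl⟩ := mem_image.1 hz'
          have a1 := hxP0 z hz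
          have a2 := δt x (y i) z
          have a3 := hy1 i
          have a4 := δs z (y i)
          linarith
        · obtain ⟨i, _, rfl⟩ := mem_image.1 hz
          have a1 := hxP0 z' hz'
          have a2 := δt x (y i) z'
          have a3 := hy1 i
          linarith
        · obtain ⟨i, _, rfl⟩ := mem_image.1 hz
          obtain ⟨j, _, rfl⟩ := mem_image.1 hz'
          have hij : i ≠ j := by
            rintro rfl
            exact hne rfl
          have := hy2 i j hij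
          have := hsep m
          linarith
      · intro z hz z' hz'
        rcases mem_union.1 hz' with hz' | hz'
        · exact hPP0 z hz z' hz'
        · obtain ⟨i, _, rfl⟩ := mem_image.1 hz'
          have a1 := hxP z hz
          have a2 := δt x (y i) z
          have a3 := hy1 i
          have a4 := δs z (y i)
          linarith
    refine le_trans (add_le_add hA hB) ?_
    rw [← sum_mul, sum_const, nsmul_eq_mul, card_insert_of_notMem hx, pow_succ]
    have hWx := hW x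
    have hq : ∑ e ∈ near (m + 1) x, p e + (Y.card : ℝ≥0∞) * (W m) ^ J ≤ W (m + 1) := by
      refine le_trans ?_ hWx
      refine add_le_add le_rfl ?_
      rw [mul_pow]
      exact mul_le_mul_left hYcard _
    calc (∑ e ∈ near (m + 1) x, p e) *
          ((∏ e ∈ S, p e) * (W m) ^ P0.card * (W (m + 1)) ^ P.card) +
          (Y.card : ℝ≥0∞) * ((W m) ^ J * ((∏ e ∈ S, p e) * (W m) ^ P0.card * (W (m + 1)) ^ P.card))
        = (∑ e ∈ near (m + 1) x, p e + (Y.card : ℝ≥0∞) * (W m) ^ J) *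
          ((∏ e ∈ S, p e) * (W m) ^ P0.card * (W (m + 1)) ^ P.card) := by ring
      _ ≤ W (m + 1) * ((∏ e ∈ S, p e) * (W m) ^ P0.card * (W (m + 1)) ^ P.card) :=
          mul_le_mul_left hq _
      _ = _ := by ring

/-- Level zero. -/
theorem tset_zero {X E Ω : Type*} [Fintype X] [DecidableEq X] [DecidableEq E]
    [MeasurableSpace Ω] (μ : Measure Ω) (δ : X → X → ℝ)
    (δs : ∀ x y, δ x y = δ y x) (δt : ∀ x y z, δ x z ≤ δ x y + δ y z)
    (B : E → Set Ω) (near : ℕ → X → Finset E) (pos : E → X) (J : ℕ) (L sep ρ : ℕ → ℝ)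
    (hnear : ∀ x, ∀ e ∈ near 0 x, δ x (pos e) ≤ ρ 0)
    (p : E → ℝ≥0∞) (hp : ∀ S : Finset E, μ (⋂ e ∈ S, B e) ≤ ∏ e ∈ S, p e) (W : ℕ → ℝ≥0∞)
    (hW : ∀ x, ∑ e ∈ near 0 x, p e ≤ W 0) :
    ∀ (P : Finset X) (S : Finset E),
      (∀ e ∈ S, ∀ x ∈ P, ρ 0 < δ (pos e) x) →
      (∀ x ∈ P, ∀ y ∈ P, x ≠ y → 2 * ρ 0 < δ x y) →
      μ ((⋂ e ∈ S, B e) ∩ ⋂ x ∈ P, Tset δ B near J L sep 0 x) ≤
        (∏ e ∈ S, p e) * (W 0) ^ P.card := by
  classical
  intro P
  induction P using Finset.induction_on with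
  | empty =>
    intro S _ _
    have h := hp S
    simpa using h
  | insert x P hx ih =>
    intro S h1 h2
    have hcov : (⋂ e ∈ S, B e) ∩ ⋂ z ∈ insert x P, Tset δ B near J L sep 0 z ⊆
        (⋃ e ∈ near 0 x, ((⋂ e' ∈ insert e S, B e') ∩ ⋂ z ∈ P, Tset δ B near J L sep 0 z)) := by
      intro ω hω
      obtain ⟨hS, hP⟩ := hω
      rw [Set.mem_iInter₂] at hS hP
      have hxT : ω ∈ Tset δ B near J L sep 0 x := hP x (mem_insert_self _ _)
      obtain ⟨e, he, hBe⟩ := hxT
      rw [Set.mem_iUnion₂]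
      refine ⟨e, he, ⟨?_, ?_⟩⟩
      · rw [Set.mem_iInter₂]
        intro e' he'
        rcases mem_insert.1 he' with rfl | he'
        · exact hBe
        · exact hS e' he'
      · rw [Set.mem_iInter₂]
        exact fun z hz => hP z (mem_insert_of_mem hz)
    refine le_trans (measure_mono hcov) ?_
    refine le_trans (measure_biUnion_finset_le _ _) ?_
    have hxS : ∀ e ∈ S, ρ 0 < δ (pos e) x := fun e he => h1 e he x (mem_insert_self _ _)
    have hxP : ∀ z ∈ P, 2 * ρ 0 < δ x z := by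
      intro z hz
      refine h2 x (mem_insert_self _ _) z (mem_insert_of_mem hz) ?_
      rintro rfl
      exact hx hz
    have hA : ∑ e ∈ near 0 x, μ ((⋂ e' ∈ insert e S, B e') ∩ ⋂ z ∈ P, Tset δ B near J L sep 0 z) ≤
        ∑ e ∈ near 0 x, p e * ((∏ e ∈ S, p e) * (W 0) ^ P.card) := by
      refine sum_le_sum ?_
      intro e he
      have hxe : δ x (pos e) ≤ ρ 0 := hnear x e he
      have heS : e ∉ S := by
        intro hmem
        have := hxS e hmem
        rw [δs] at this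
        linarith
      have h := ih (insert e S) ?_ (fun z hz z' hz' hne =>
        h2 z (mem_insert_of_mem hz) z' (mem_insert_of_mem hz') hne)
      · rw [prod_insert heS] at h
        calc _ ≤ _ := h
          _ = _ := by ring
      · intro e' he' z hz
        rcases mem_insert.1 he' with rfl | he'
        · have a1 := hxP z hz
          have a2 := δt x (pos e') z
          linarith
        · exact h1 e' he' z (mem_insert_of_mem hz)
    refine le_trans hA ?_
    rw [← sum_mul, card_insert_of_notMem hx, pow_succ]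
    calc (∑ e ∈ near 0 x, p e) * ((∏ e ∈ S, p e) * (W 0) ^ P.card)
        ≤ W 0 * ((∏ e ∈ S, p e) * (W 0) ^ P.card) := mul_le_mul_left (hW x) _
      _ = _ := by ring

/-- **Probability of the bad sets.** -/
theorem tset_prob {X E Ω : Type*} [Fintype X] [DecidableEq X] [DecidableEq E]
    [MeasurableSpace Ω] (μ : Measure Ω) (δ : X → X → ℝ) (δ0 : ∀ x, δ x x = 0)
    (δs : ∀ x y, δ x y = δ y x) (δt : ∀ x y z, δ x z ≤ δ x y + δ y z)
    (B : E → Set Ω) (near : ℕ → X → Finset E) (pos : E → X) (J : ℕ) (L sep ρ : ℕ → ℝ)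
    (hρ0 : ∀ m, 0 ≤ ρ m) (hnear : ∀ m x, ∀ e ∈ near m x, δ x (pos e) ≤ ρ m)
    (hρ : ∀ m, L (m + 1) + ρ m ≤ ρ (m + 1)) (hsep : ∀ m, 2 * ρ m ≤ sep m)
    (p : E → ℝ≥0∞) (hp : ∀ S : Finset E, μ (⋂ e ∈ S, B e) ≤ ∏ e ∈ S, p e) (W : ℕ → ℝ≥0∞)
    (hW0 : ∀ x, ∑ e ∈ near 0 x, p e ≤ W 0)
    (hW : ∀ m x, ∑ e ∈ near (m + 1) x, p e +
      (((univ.filter (fun y => δ x y ≤ L (m + 1))).card : ℝ≥0∞) * W m) ^ J ≤ W (m + 1)) :
    ∀ (m : ℕ) (S : Finset E) (P : Finset X), (∀ e ∈ S, ∀ x ∈ P, ρ m < δ (pos e) x) →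
      (∀ x ∈ P, ∀ y ∈ P, x ≠ y → 2 * ρ m < δ x y) →
      μ ((⋂ e ∈ S, B e) ∩ ⋂ x ∈ P, Tset δ B near J L sep m x) ≤
        (∏ e ∈ S, p e) * (W m) ^ P.card := by
  intro m
  induction m with
  | zero =>
    intro S P h1 h2
    exact tset_zero μ δ δs δt B near pos J L sep ρ (hnear 0) p hp W hW0 P S h1 h2
  | succ m ih =>
    intro S P h1 h2
    have h := tset_step μ δ δ0 δs δt B near pos J L sep ρ hρ0 hnear hρ hsep p W m (hW m) ih P S ∅ h1
      (by simp) h2 (by simp) (by simp)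
    simpa using h

/-- One site. -/
theorem tset_prob_one {X E Ω : Type*} [Fintype X] [DecidableEq X] [DecidableEq E]
    [MeasurableSpace Ω] (μ : Measure Ω) (δ : X → X → ℝ) (δ0 : ∀ x, δ x x = 0)
    (δs : ∀ x y, δ x y = δ y x) (δt : ∀ x y z, δ x z ≤ δ x y + δ y z)
    (B : E → Set Ω) (near : ℕ → X → Finset E) (pos : E → X) (J : ℕ) (L sep ρ : ℕ → ℝ)
    (hρ0 : ∀ m, 0 ≤ ρ m) (hnear : ∀ m x, ∀ e ∈ near m x, δ x (pos e) ≤ ρ m)
    (hρ : ∀ m, L (m + 1) + ρ m ≤ ρ (m + 1)) (hsep : ∀ m, 2 * ρ m ≤ sep m)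
    (p : E → ℝ≥0∞) (hp : ∀ S : Finset E, μ (⋂ e ∈ S, B e) ≤ ∏ e ∈ S, p e) (W : ℕ → ℝ≥0∞)
    (hW0 : ∀ x, ∑ e ∈ near 0 x, p e ≤ W 0)
    (hW : ∀ m x, ∑ e ∈ near (m + 1) x, p e +
      (((univ.filter (fun y => δ x y ≤ L (m + 1))).card : ℝ≥0∞) * W m) ^ J ≤ W (m + 1))
    (m : ℕ) (x : X) : μ (Tset δ B near J L sep m x) ≤ W m := by
  have h := tset_prob μ δ δ0 δs δt B near pos J L sep ρ hρ0 hnear hρ hsep p hp W hW0 hW m ∅ {x}
    (by simp) (by
      intro a ha b hb hne
      rw [mem_singleton] at ha hb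
      exact absurd (ha.trans hb.symm) hne)
  simpa using h

end Pool.Agent.ACN
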